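import Pool.Agent.Helper70.RN.Sheet
import Pool.Agent.Helper61.R9.ROOT
import Pool.Agent.Helper84.RT.SVL

/-! # Row SVL of `Pool.Helper70.RN` (MP_798d7d_nt): the large primes of the sieve -/

set_option autoImplicit false

namespace Pool.Helper70.RN

namespace S84

open Polynomial

section
variable {R S : Type*} [CommRing R] [CommRing S]

theorem map_n1 (f : R →+* S) (u : Fin 4 → R) : f (n1 u) = n1 (fun i => f (u i)) := by
  simp [n1, map_ofNat]

theorem map_n2 (f : R →+* S) (u : Fin 4 → R) : f (n2 u) = n2 (fun i => f (u i)) := by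
  simp [n2, map_ofNat]

theorem map_m1 (f : R →+* S) (u : Fin 4 → R) : f (m1 u) = m1 (fun i => f (u i)) := by
  simp [m1, map_ofNat]

theorem map_m2 (f : R →+* S) (u : Fin 4 → R) : f (m2 u) = m2 (fun i => f (u i)) := by
  simp [m2, map_ofNat]

theorem map_pr (f : R →+* S) (u : Fin 4 → R) : f (pr u) = pr (fun i => f (u i)) := by
  simp [pr, map_ofNat]

theorem map_cc (f : R →+* S) (u : Fin 4 → R) : f (cc u) = cc (fun i => f (u i)) := by
  simp only [cc, map_sub, map_n1, map_n2]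

theorem map_e2 (f : R →+* S) (u : Fin 4 → R) : f (e2 u) = e2 (fun i => f (u i)) := by
  simp only [e2, map_sub, map_add, map_mul, map_pow, map_neg, map_ofNat, map_n1, map_n2]

theorem map_e3 (f : R →+* S) (u : Fin 4 → R) : f (e3 u) = e3 (fun i => f (u i)) := by
  simp only [e3, map_add, map_mul, map_ofNat, map_cc, map_pr]

theorem map_g0 (f : R →+* S) (u : Fin 4 → R) : f (g0 u) = g0 (fun i => f (u i)) := by
  simp only [g0, map_add, map_sub, map_mul, map_pow, map_ofNat, map_n1, map_n2, map_m1, map_m2]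

theorem map_l1 (f : R →+* S) (u : Fin 4 → R) : f (l1 u) = l1 (fun i => f (u i)) := by
  simp only [l1, map_add, map_sub, map_mul, map_pow, map_ofNat, map_n1, map_n2]

theorem map_d0 (f : R →+* S) (u : Fin 4 → R) : f (d0 u) = d0 (fun i => f (u i)) := by
  simp only [d0, map_add, map_sub, map_mul, map_pow, map_neg, map_ofNat, map_n1, map_n2, map_m1,
    map_m2, map_cc, map_pr]

theorem map_h3 (f : R →+* S) (u : Fin 4 → R) : f (h3 u) = h3 (fun i => f (u i)) := by
  simp only [h3, map_add, map_sub, map_mul, map_pow, map_neg, map_ofNat, map_d0, map_cc, map_l1,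
    map_e2, map_e3]

theorem map_h2 (f : R →+* S) (u : Fin 4 → R) : f (h2 u) = h2 (fun i => f (u i)) := by
  simp only [h2, map_add, map_sub, map_mul, map_pow, map_neg, map_ofNat, map_d0, map_cc, map_l1,
    map_e2, map_e3, map_g0]

theorem map_h1 (f : R →+* S) (u : Fin 4 → R) : f (h1 u) = h1 (fun i => f (u i)) := by
  simp only [h1, map_add, map_sub, map_mul, map_pow, map_neg, map_ofNat, map_d0, map_cc, map_l1,
    map_e2, map_e3, map_g0]

theorem map_h0 (f : R →+* S) (u : Fin 4 → R) : f (h0 u) = h0 (fun i => f (u i)) := by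
  simp only [h0, map_add, map_sub, map_mul, map_pow, map_neg, map_ofNat, map_d0, map_cc, map_g0]

theorem map_fI (f : R →+* S) (u : Fin 4 → R) (t : R) :
    f (fI u t) = fI (fun i => f (u i)) (f t) := by
  simp only [fI, q4, q3, q2, q1, q0, map_add, map_sub, map_mul, map_pow, map_neg, map_ofNat,
    map_e2, map_e3, map_g0, map_h3, map_h2, map_h1, map_h0]

theorem map_fJ (f : R →+* S) (u : Fin 4 → R) (t : R) :
    f (fJ u t) = fJ (fun i => f (u i)) (f t) := by
  simp only [fJ, q4, q3, q2, q1, q0, map_add, map_sub, map_mul, map_pow, map_neg, map_ofNat,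
    map_e2, map_e3, map_g0, map_h3, map_h2, map_h1, map_h0]

theorem fI_expand (u : Fin 4 → R) (t : R) : fI u t = 48 * t ^ 3 + (96 * g0 u + 4 * e2 u ^ 2) * t ^ 2 +
    (48 * h0 u + 6 * h3 u * e3 u + 4 * e2 u * h2 u) * t +
      (h2 u ^ 2 - 3 * h3 u * h1 u) := by
  unfold fI q4 q3 q2 q1 q0
  ring

end

theorem eval_pI (u : Fin 4 → ℤ) (t : ℤ) : (pI u).eval t = fI u t := by
  have h := map_fI (evalRingHom t) (fun i => C (u i)) X
  simp only [coe_evalRingHom, eval_C, eval_X] at h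
  exact h

theorem eval_pJ (u : Fin 4 → ℤ) (t : ℤ) : (pJ u).eval t = fJ u t := by
  have h := map_fJ (evalRingHom t) (fun i => C (u i)) X
  simp only [coe_evalRingHom, eval_C, eval_X] at h
  exact h

theorem deg_pI (u : Fin 4 → ℤ) : (pI u).natDegree ≤ 3 := by
  unfold pI
  rw [fI_expand, ← map_g0 C u, ← map_e2 C u, ← map_e3 C u, ← map_h3 C u, ← map_h2 C u,
    ← map_h1 C u, ← map_h0 C u]
  generalize g0 u = a1
  generalize e2 u = a2
  generalize e3 u = a3
  generalize h3 u = b3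
  generalize h2 u = b2
  generalize h1 u = b1
  generalize h0 u = b0
  compute_degree

theorem deg_pJ (u : Fin 4 → ℤ) : (pJ u).natDegree ≤ 4 := by
  unfold pJ fJ q4 q3 q2 q1 q0
  rw [← map_g0 C u, ← map_e2 C u, ← map_e3 C u, ← map_h3 C u, ← map_h2 C u,
    ← map_h1 C u, ← map_h0 C u]
  generalize g0 u = a1
  generalize e2 u = a2
  generalize e3 u = a3
  generalize h3 u = b3
  generalize h2 u = b2
  generalize h1 u = b1
  generalize h0 u = b0
  compute_degree

theorem QQ_ge : 10000000 ≤ QQ := by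
  unfold QQ
  exact Nat.le_add_left _ _

theorem not_dvd_small (q : ℕ) (hQ : QQ < q) (n : ℤ) (h0 : 0 < n) (hn : n < 10000000) :
    ¬ (q : ℤ) ∣ n := by
  intro h
  have h1 := Int.le_of_dvd h0 h
  have h2 := QQ_ge
  omega

theorem not_dvd_MM (q : ℕ) (hq : q.Prime) (hQ : QQ < q) : ¬ (q : ℤ) ∣ MM := by
  unfold MM
  intro h
  rcases (Nat.prime_iff_prime_int.mp hq).dvd_or_dvd h with h1 | h1
  · exact not_dvd_small q hQ 1728 (by norm_num) (by norm_num) h1
  · have h2 : q ∣ QQ.factorial := by exact_mod_cast h1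
    have h3 := (Nat.Prime.dvd_factorial hq).mp h2
    omega

theorem not_dvd_lead (q : ℕ) (hq : q.Prime) (hQ : QQ < q) : ¬ (q : ℤ) ∣ 48 * MM ^ 6 := by
  intro h
  rcases (Nat.prime_iff_prime_int.mp hq).dvd_or_dvd h with h1 | h1
  · exact not_dvd_small q hQ 48 (by norm_num) (by norm_num) h1
  · exact not_dvd_MM q hq hQ ((Nat.prime_iff_prime_int.mp hq).dvd_of_dvd_pow h1)

/-- the members are congruent to the base -/
theorem ww_cong (m : ℕ) (T : (Fin 4 → ℕ) × ℕ) : Cong (ww m T) := by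
  refine ⟨fun i => ⟨(T.1 i : ℤ), ?_⟩, ⟨(m : ℤ) ^ 8 + (T.2 : ℤ), ?_⟩⟩
  · show (ub i + MM * (T.1 i : ℤ)) - ub i = _
    ring
  · show (15 + MM * ((m : ℤ) ^ 8 + (T.2 : ℤ))) - 15 = _
    ring

/-- the values of `z` for a prime `q` and a given `u` -/
theorem zcount (m q : ℕ) (hqp : q.Prime) (hQ : QQ < q) (u : Fin 4 → ℤ) (G : Finset ℕ)
    (hG : ∀ n ∈ G, n < m ^ 8 ∧ (q : ℤ) ∣ fI u ((15 + MM * ((m : ℤ) ^ 8 + (n : ℤ))) ^ 2)) :
    G.card ≤ 6 * (m ^ 8 / q + 1) := by
  refine Pool.Helper34.R9.st_ROOT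
    (Pool.Helper70.RT.S84.WW (15 + MM * (m : ℤ) ^ 8) MM (96 * g0 u + 4 * e2 u ^ 2)
      (48 * h0 u + 6 * h3 u * e3 u + 4 * e2 u * h2 u)
      (h2 u ^ 2 - 3 * h3 u * h1 u)) 6 q (m ^ 8) hqp
    (Pool.Helper70.RT.S84.WW_deg _ _ _ _ _)
    (by rw [Pool.Helper70.RT.S84.WW_coeff]; exact not_dvd_lead q hqp hQ) G ?_
  intro n hn
  obtain ⟨hn1, hn2⟩ := hG n hn
  refine ⟨hn1, ?_⟩
  rw [Pool.Helper70.RT.S84.WW_eval, ← fI_expand]
  have e : 15 + MM * (m : ℤ) ^ 8 + MM * (n : ℤ) = 15 + MM * ((m : ℤ) ^ 8 + (n : ℤ)) := by ring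
  rw [e]
  exact hn2

/-- a common divisor of `A`, `B` divides the resultant and `I` -/
theorem dvd_both (hREL : ST_REL) (hRES : Pool.Helper70.RT.ST_RES) (m : ℕ)
    (T : (Fin 4 → ℕ) × ℕ) (q : ℤ) (hA : q ∣ cA (ww m T)) (hB : q ∣ cB (ww m T)) :
    q ∣ fI (uu T.1) ((15 + MM * ((m : ℤ) ^ 8 + (T.2 : ℤ))) ^ 2) ∧ q ∣ Ru (uu T.1) := by
  obtain ⟨r1, r2, -, -⟩ := hREL _ (ww_cong m T)
  have w1' : (ww m T).1 = uu T.1 := rfl
  have w2' : (ww m T).2 = 15 + MM * ((m : ℤ) ^ 8 + (T.2 : ℤ)) := rfl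
  rw [w1', w2'] at r1 r2
  have dI : q ∣ fI (uu T.1) ((15 + MM * ((m : ℤ) ^ 8 + (T.2 : ℤ))) ^ 2) := by
    have : q ∣ -(fI (uu T.1) ((15 + MM * ((m : ℤ) ^ 8 + (T.2 : ℤ))) ^ 2)) := by
      rw [← r1]
      exact Dvd.dvd.mul_left hA 48
    exact (dvd_neg.mp this)
  have dJ : q ∣ fJ (uu T.1) ((15 + MM * ((m : ℤ) ^ 8 + (T.2 : ℤ))) ^ 2) := by
    have : q ∣ -(fJ (uu T.1) ((15 + MM * ((m : ℤ) ^ 8 + (T.2 : ℤ))) ^ 2)) := by
      rw [← r2]
      exact Dvd.dvd.mul_left hB 1728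
    exact (dvd_neg.mp this)
  refine ⟨dI, ?_⟩
  exact hRES (pI (uu T.1)) (pJ (uu T.1)) (deg_pI _) (deg_pJ _) q
    ((15 + MM * ((m : ℤ) ^ 8 + (T.2 : ℤ))) ^ 2) (by rw [eval_pI]; exact dI)
    (by rw [eval_pJ]; exact dJ)

end S84

open S84 in
theorem st_SVL (hREL : ST_REL) (hRES : Pool.Helper70.RT.ST_RES) (hRNZ : ST_RNZ) : ST_SVL := by
  classical
  obtain ⟨C0, hC0, hR⟩ := hRNZ
  have hc : C0 ≤ 2 ^ C0 := Nat.lt_two_pow_self.le
  refine ⟨(1000 + C0) * 12, fun m hm => ?_⟩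
  have hcard : ((Box m).filter (fun T => ∃ q : ℕ, q.Prime ∧ m ^ 3 < q ∧ QQ < q ∧
      (q : ℤ) ∣ cA (ww m T) ∧ (q : ℤ) ∣ cB (ww m T))).card ≤
      ((1000 + C0) * (12 * m ^ 5)) *
        (Fintype.piFinset fun _ : Fin 4 => Finset.range (m ^ 3)).card := by
    apply Finset.card_le_mul_card_image_of_maps_to (f := fun T : (Fin 4 → ℕ) × ℕ => T.1)
    · intro T hT
      have hT1 := (Finset.mem_filter.mp hT).1
      unfold Box at hT1
      rw [Finset.mem_product] at hT1
      exact hT1.1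
    · intro a ha
      have hT0 : ((a, 0) : (Fin 4 → ℕ) × ℕ) ∈ Box m := by
        unfold Box
        rw [Finset.mem_product]
        exact ⟨ha, Finset.mem_range.mpr (by positivity)⟩
      obtain ⟨hx0, hxb⟩ := hR m (by omega) (a, 0) hT0
      have eU : ((a, 0) : (Fin 4 → ℕ) × ℕ).1 = a := rfl
      rw [eU] at hx0 hxb
      set x : ℕ := (Ru (uu a)).natAbs with hx
      have hxne : x ≠ 0 := Int.natAbs_ne_zero.mpr hx0
      have hxk : x ≤ m ^ (1000 + C0) := by
        have h1 : (x : ℤ) ≤ (C0 : ℤ) * (m : ℤ) ^ 1000 := by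
          rw [hx, Int.natCast_natAbs]
          exact hxb
        have h2 : x ≤ C0 * m ^ 1000 := by exact_mod_cast h1
        have h3 : 2 ^ C0 ≤ m ^ C0 := Nat.pow_le_pow_left hm C0
        calc x ≤ C0 * m ^ 1000 := h2
          _ ≤ m ^ C0 * m ^ 1000 := Nat.mul_le_mul_right _ (hc.trans h3)
          _ = m ^ (1000 + C0) := by rw [← pow_add, add_comm]
      have hm3 : m ≤ m ^ 3 := Nat.le_self_pow (by norm_num) m
      set S : Finset ℕ := x.primeFactors.filter (fun q => m ^ 3 < q ∧ QQ < q) with hS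
      have hScard : S.card ≤ 1000 + C0 :=
        Pool.Helper70.RT.S84.few_primes m x (1000 + C0) hm hxne hxk S (Finset.filter_subset _ _)
          (fun q hq => hm3.trans (Finset.mem_filter.mp hq).2.1.le)
      set G : ℕ → Finset ℕ := fun q => (Finset.range (m ^ 8)).filter
        (fun n => (q : ℤ) ∣ fI (uu a) ((15 + MM * ((m : ℤ) ^ 8 + (n : ℤ))) ^ 2)) with hG
      have hGc : ∀ q ∈ S, (G q).card ≤ 12 * m ^ 5 := by
        intro q hq
        obtain ⟨hq1, hq2, hq3⟩ := Finset.mem_filter.mp hq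
        have hqp := Nat.prime_of_mem_primeFactors hq1
        have h1 := zcount m q hqp hq3 (uu a) (G q) (by
            intro n hn
            obtain ⟨hn1, hn2⟩ := Finset.mem_filter.mp hn
            exact ⟨Finset.mem_range.mp hn1, hn2⟩)
        have hm0 : 0 < m := by omega
        have h2 : m ^ 8 / q ≤ m ^ 5 := by
          have h21 : m ^ 8 / q ≤ m ^ 8 / m ^ 3 :=
            Nat.div_le_div_left hq2.le (pow_pos hm0 3)
          refine h21.trans ?_
          have h22 : m ^ 8 = m ^ 5 * m ^ 3 := by ring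
          rw [h22, Nat.mul_div_cancel _ (pow_pos hm0 3)]
        have h3 : 1 ≤ m ^ 5 := Nat.one_le_pow _ _ hm0
        calc (G q).card ≤ 6 * (m ^ 8 / q + 1) := h1
          _ ≤ 6 * (m ^ 5 + m ^ 5) := Nat.mul_le_mul_left 6 (Nat.add_le_add h2 h3)
          _ = 12 * m ^ 5 := by ring
      have hsub : (((Box m).filter (fun T => ∃ q : ℕ, q.Prime ∧ m ^ 3 < q ∧ QQ < q ∧
          (q : ℤ) ∣ cA (ww m T) ∧ (q : ℤ) ∣ cB (ww m T))).filter
            (fun T => T.1 = a)).card ≤ (S.biUnion G).card := by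
        apply Finset.card_le_card_of_injOn (fun T : (Fin 4 → ℕ) × ℕ => T.2)
        · rintro ⟨t1, n⟩ hT
          rw [Finset.mem_coe, Finset.mem_filter, Finset.mem_filter] at hT
          obtain ⟨⟨hTB, q, hqp, hqm, hqQ, hqA, hqB⟩, hTe⟩ := hT
          have e1 : t1 = a := hTe
          subst e1
          unfold Box at hTB
          rw [Finset.mem_product] at hTB
          obtain ⟨dI, dR⟩ := dvd_both hREL hRES m (t1, n) (q : ℤ) hqA hqB
          rw [Finset.mem_coe, Finset.mem_biUnion]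
          refine ⟨q, ?_, ?_⟩
          · rw [hS, Finset.mem_filter, Nat.mem_primeFactors]
            exact ⟨⟨hqp, Int.natCast_dvd.mp dR, hxne⟩, hqm, hqQ⟩
          · exact Finset.mem_filter.mpr ⟨hTB.2, dI⟩
        · rintro ⟨t1, n⟩ hT ⟨t1', n'⟩ hT' hn
          rw [Finset.mem_coe, Finset.mem_filter] at hT hT'
          have e1 : t1 = a := hT.2
          have e3' : t1' = a := hT'.2
          have e5' : n = n' := hn
          rw [e1, e3', e5']
      refine hsub.trans (Finset.card_biUnion_le.trans ?_)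
      calc ∑ q ∈ S, (G q).card ≤ S.card • (12 * m ^ 5) := Finset.sum_le_card_nsmul _ _ _ hGc
        _ = S.card * (12 * m ^ 5) := by rw [smul_eq_mul]
        _ ≤ (1000 + C0) * (12 * m ^ 5) := Nat.mul_le_mul_right _ hScard
  rw [Fintype.card_piFinset] at hcard
  simp only [Finset.card_range, Finset.prod_const, Finset.card_univ, Fintype.card_fin] at hcard
  refine hcard.trans (le_of_eq ?_)
  ring

end Pool.Helper70.RN
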